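import Mathlib
import Pool.Agent.R192.WP.Fix

/-!
# A left invariant mean on `WAP(S)` forces property (F), for every semitopological semigroup

`S` is an arbitrary semigroup with a topology in which all left and right multiplications are
continuous (`SeparatelyContinuousMul`), with no separability assumption.  If the space `WAP(S)` of
weakly almost periodic functions carries a left invariant mean then every weakly separately
continuous, weakly quasi-equicontinuous, `Q`-nonexpansive representation of `S` on a nonempty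
weakly compact convex subset of a Hausdorff locally convex space `(E, Q)` has a common fixed point.
-/

set_option autoImplicit false

open Filter Topology Set BoundedContinuousFunction

namespace Pool.Agent.Results.MP_c68506_an.NoSeparability

universe u v w

section Definitions

variable (𝕜 : Type*) [RCLike 𝕜]
variable {S : Type*} [Semigroup S] [TopologicalSpace S] [SeparatelyContinuousMul S]

/-- The left translate `ℓ_a f (t) = f (a t)` of a bounded continuous function. -/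
def leftTranslate {𝕜 : Type*} [RCLike 𝕜] (a : S) (f : S →ᵇ 𝕜) : S →ᵇ 𝕜 :=
  f.compContinuous ⟨fun t => a * t, continuous_const_mul a⟩

/-- The orbit `{ℓ_a f : a ∈ S}`, seen in `C_b(S)` with its weak topology. -/
def orbit (f : S →ᵇ 𝕜) : Set (WeakSpace 𝕜 (S →ᵇ 𝕜)) :=
  toWeakSpace 𝕜 (S →ᵇ 𝕜) '' Set.range fun a : S => leftTranslate a f

lemma leftTranslate_leftTranslate (a b : S) (f : S →ᵇ 𝕜) :
    leftTranslate a (leftTranslate b f) = leftTranslate (b * a) f := by
  ext t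
  simp [leftTranslate, mul_assoc]

lemma isCompact_closure_of_subset {X : Type*} [TopologicalSpace X] [T2Space X] {A B : Set X}
    (hB : IsCompact B) (h : A ⊆ B) : IsCompact (closure A) :=
  hB.closure_of_subset h

variable (S) in
/-- `WAP(S)`: the bounded continuous functions whose orbit of left translates is relatively
weakly compact in `C_b(S)`. -/
def WAP : Submodule 𝕜 (S →ᵇ 𝕜) where
  carrier := {f | IsCompact (closure (orbit 𝕜 f))}
  add_mem' := by
    intro f g hf hg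
    refine isCompact_closure_of_subset (hf.add hg) ?_
    rintro _ ⟨_, ⟨a, rfl⟩, rfl⟩
    refine Set.mem_add.2 ⟨toWeakSpace 𝕜 (S →ᵇ 𝕜) (leftTranslate a f),
      subset_closure ⟨_, ⟨a, rfl⟩, rfl⟩, toWeakSpace 𝕜 (S →ᵇ 𝕜) (leftTranslate a g),
      subset_closure ⟨_, ⟨a, rfl⟩, rfl⟩, ?_⟩
    rw [← map_add]
    rfl
  zero_mem' := by
    refine isCompact_closure_of_subset (isCompact_singleton (x := (0 : WeakSpace 𝕜 (S →ᵇ 𝕜)))) ?_
    rintro _ ⟨_, ⟨a, rfl⟩, rfl⟩
    rfl
  smul_mem' := by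
    intro c f hf
    refine isCompact_closure_of_subset (hf.image (continuous_const_smul c)) ?_
    rintro _ ⟨_, ⟨a, rfl⟩, rfl⟩
    refine ⟨toWeakSpace 𝕜 (S →ᵇ 𝕜) (leftTranslate a f), subset_closure ⟨_, ⟨a, rfl⟩, rfl⟩, ?_⟩
    rfl

lemma one_mem_WAP : (1 : S →ᵇ 𝕜) ∈ WAP 𝕜 S := by
  refine isCompact_closure_of_subset (isCompact_singleton
    (x := toWeakSpace 𝕜 (S →ᵇ 𝕜) (1 : S →ᵇ 𝕜))) ?_
  rintro _ ⟨_, ⟨a, rfl⟩, rfl⟩
  rfl

lemma leftTranslate_mem_WAP (a : S) {f : S →ᵇ 𝕜} (hf : f ∈ WAP 𝕜 S) :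
    leftTranslate a f ∈ WAP 𝕜 S := by
  refine isCompact_closure_of_subset hf ?_
  rintro _ ⟨_, ⟨b, rfl⟩, rfl⟩
  refine subset_closure ⟨_, ⟨a * b, rfl⟩, ?_⟩
  simp only [leftTranslate_leftTranslate]

/-- A left invariant mean on `WAP(S)`: a positive normalized functional `m` with
`m (ℓ_a f) = m f` for all `a ∈ S`, `f ∈ WAP(S)`. -/
structure IsLIM (m : WAP 𝕜 S →ₗ[𝕜] 𝕜) : Prop where
  nonneg : ∀ f : WAP 𝕜 S, (∀ t, ∃ r : ℝ, 0 ≤ r ∧ (f : S →ᵇ 𝕜) t = (r : 𝕜)) →
    ∃ r : ℝ, 0 ≤ r ∧ m f = (r : 𝕜)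
  one : m ⟨1, one_mem_WAP 𝕜⟩ = 1
  invariant : ∀ (a : S) (f : WAP 𝕜 S), m ⟨leftTranslate a f, leftTranslate_mem_WAP 𝕜 a f.2⟩ = m f

/-- `T` is a weakly separately continuous, weakly quasi-equicontinuous, `Q`-nonexpansive
representation of `S` on `C`; here `C` is a subset of `E` with its weak topology. -/
structure IsRepresentation {S : Type*} [Semigroup S] [TopologicalSpace S]
    {𝕂 E ι : Type*} [RCLike 𝕂] [AddCommGroup E] [Module 𝕂 E] [TopologicalSpace E]
    [IsTopologicalAddGroup E] (Q : SeminormFamily 𝕂 E ι) (C : Set (WeakSpace 𝕂 E))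
    (T : S → C → C) : Prop where
  mul : ∀ s t, T (s * t) = T s ∘ T t
  continuous_right : ∀ s, Continuous (T s)
  continuous_left : ∀ x, Continuous fun s => T s x
  quasi_equicontinuous : ∀ g ∈ closure (Set.range T), Continuous g
  nonexpansive : ∀ (i : ι) (s : S) (x y : C),
    Q i ((toWeakSpace 𝕂 E).symm (T s x) - (toWeakSpace 𝕂 E).symm (T s y)) ≤
      Q i ((toWeakSpace 𝕂 E).symm x - (toWeakSpace 𝕂 E).symm y)

/-- Property (F). -/
def PropertyF (S : Type u) [Semigroup S] [TopologicalSpace S] : Prop :=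
  ∀ (𝕂 : Type) [RCLike 𝕂] (E : Type v) [AddCommGroup E] [Module 𝕂 E] [Module ℝ E]
    [IsScalarTower ℝ 𝕂 E] [TopologicalSpace E] [IsTopologicalAddGroup E] [T2Space E]
    (ι : Type w) (Q : SeminormFamily 𝕂 E ι), WithSeminorms Q →
    ∀ C : Set (WeakSpace 𝕂 E), C.Nonempty → IsCompact C → Convex ℝ C →
    ∀ T : S → C → C, IsRepresentation Q C T → ∃ x : C, ∀ s, T s x = x

end Definitions

section Bridge

open Pool.Agent.R192.WP

variable {𝕜 : Type*} [RCLike 𝕜] {S X : Type*} [Semigroup S] [TopologicalSpace S]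
  [TopologicalSpace X] [CompactSpace X]

/-- pull back of a continuous function on the enveloping semigroup -/
noncomputable def pull (𝕜 : Type*) [RCLike 𝕜] (A : Act S X) (hA : Continuous A.phi)
    (h : C(A.Env, ℝ)) : S →ᵇ 𝕜 :=
  BoundedContinuousFunction.ofNormedAddCommGroup (fun s => ((h (A.phi s) : ℝ) : 𝕜))
    (RCLike.continuous_ofReal.comp (h.continuous.comp hA)) ‖h‖
    (fun s => by
      rw [RCLike.norm_ofReal, ← Real.norm_eq_abs]
      exact h.norm_coe_le_norm _)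

/-- the pull back as a continuous linear map -/
noncomputable def pullL (𝕜 : Type*) [RCLike 𝕜] (A : Act S X) (hA : Continuous A.phi) :
    C(A.Env, ℝ) →L[ℝ] (S →ᵇ 𝕜) :=
  LinearMap.mkContinuous
    { toFun := pull 𝕜 A hA
      map_add' := by
        intro f g
        ext s
        simp [pull]
      map_smul' := by
        intro c f
        ext s
        simp [pull, Algebra.smul_def] } 1 (by
      intro h
      rw [one_mul]
      refine (BoundedContinuousFunction.norm_le (norm_nonneg h)).2 fun s => ?_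
      show ‖((h (A.phi s) : ℝ) : 𝕜)‖ ≤ ‖h‖
      rw [RCLike.norm_ofReal, ← Real.norm_eq_abs]
      exact h.norm_coe_le_norm _)

variable [SeparatelyContinuousMul S]

lemma leftTranslate_pull (A : Act S X) (hA : Continuous A.phi) (a : S) (h : C(A.Env, ℝ)) :
    leftTranslate a (pull 𝕜 A hA h) = pull 𝕜 A hA (lt (A.phi a) h) := by
  ext s
  simp [leftTranslate, pull, A.phi_mul]

lemma continuous_pull (A : Act S X) (hA : Continuous A.phi) (h : C(A.Env, ℝ)) :
    Continuous fun a : A.Env => toWeakSpace 𝕜 (S →ᵇ 𝕜) (pull 𝕜 A hA (lt a h)) := by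
  apply WeakBilin.continuous_of_continuous_eval
  intro ψ
  have hc : ∀ Ψ : C(A.Env, ℝ) →L[ℝ] ℝ, Continuous fun a : A.Env => Ψ (lt a h) := fun Ψ =>
    weak_continuous (fun a => lt a h) (B := ‖h‖)
      (fun a y => by
        rw [← Real.norm_eq_abs]
        exact h.norm_coe_le_norm _)
      (fun y => h.continuous.comp (continuous_mul_const y)) Ψ
  have h1 := hc (RCLike.reCLM ∘L (ψ.restrictScalars ℝ) ∘L (pullL 𝕜 A hA))
  have h2 := hc (RCLike.imCLM ∘L (ψ.restrictScalars ℝ) ∘L (pullL 𝕜 A hA))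
  have h3 : (fun a : A.Env => ψ (pull 𝕜 A hA (lt a h))) = fun a =>
      ((RCLike.re (ψ (pull 𝕜 A hA (lt a h))) : ℝ) : 𝕜) +
        ((RCLike.im (ψ (pull 𝕜 A hA (lt a h))) : ℝ) : 𝕜) * RCLike.I := by
    ext a
    rw [RCLike.re_add_im]
  show Continuous fun a : A.Env => ψ (pull 𝕜 A hA (lt a h))
  rw [h3]
  exact (RCLike.continuous_ofReal.comp h1).add
    ((RCLike.continuous_ofReal.comp h2).mul continuous_const)

lemma pull_mem_WAP (A : Act S X) (hA : Continuous A.phi) (h : C(A.Env, ℝ)) :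
    pull 𝕜 A hA h ∈ WAP 𝕜 S := by
  refine isCompact_closure_of_subset (isCompact_range (continuous_pull (𝕜 := 𝕜) A hA h)) ?_
  rintro _ ⟨_, ⟨a, rfl⟩, rfl⟩
  exact ⟨A.phi a, congrArg (toWeakSpace 𝕜 (S →ᵇ 𝕜)) (leftTranslate_pull A hA a h).symm⟩

/-- the transported mean -/
noncomputable def mean (A : Act S X) (hA : Continuous A.phi) (m : WAP 𝕜 S →ₗ[𝕜] 𝕜)
    (hm : IsLIM 𝕜 m) : C(A.Env, ℝ) →L[ℝ] ℝ :=
  have hadd : ∀ f g : C(A.Env, ℝ), RCLike.re (m ⟨pull 𝕜 A hA (f + g), pull_mem_WAP A hA _⟩) =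
      RCLike.re (m ⟨pull 𝕜 A hA f, pull_mem_WAP A hA _⟩) +
        RCLike.re (m ⟨pull 𝕜 A hA g, pull_mem_WAP A hA _⟩) := by
    intro f g
    rw [← map_add, ← map_add]
    congr 2
    exact Subtype.ext ((pullL 𝕜 A hA).map_add f g)
  have hsmul : ∀ (c : ℝ) (f : C(A.Env, ℝ)),
      RCLike.re (m ⟨pull 𝕜 A hA (c • f), pull_mem_WAP A hA _⟩) =
      c * RCLike.re (m ⟨pull 𝕜 A hA f, pull_mem_WAP A hA _⟩) := by
    intro c f
    rw [← RCLike.re_ofReal_mul, ← smul_eq_mul, ← map_smul]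
    congr 2
    apply Subtype.ext
    ext s
    simp [pull]
  have hnonneg : ∀ f : C(A.Env, ℝ), (∀ x, 0 ≤ f x) →
      0 ≤ RCLike.re (m ⟨pull 𝕜 A hA f, pull_mem_WAP A hA _⟩) := by
    intro f hf
    obtain ⟨r, hr, hr2⟩ := hm.nonneg ⟨pull 𝕜 A hA f, pull_mem_WAP A hA _⟩
      (fun t => ⟨f (A.phi t), hf _, rfl⟩)
    rw [hr2, RCLike.ofReal_re]
    exact hr
  have hone : RCLike.re (m ⟨pull 𝕜 A hA 1, pull_mem_WAP A hA _⟩) = 1 := by
    have : (⟨pull 𝕜 A hA 1, pull_mem_WAP A hA _⟩ : WAP 𝕜 S) = ⟨1, one_mem_WAP 𝕜⟩ := by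
      apply Subtype.ext
      ext s
      simp [pull]
    rw [this, hm.one, RCLike.one_re]
  LinearMap.mkContinuous
    { toFun := fun h => RCLike.re (m ⟨pull 𝕜 A hA h, pull_mem_WAP A hA _⟩)
      map_add' := hadd
      map_smul' := hsmul } 1 (by
      intro h
      have h1 := hnonneg (‖h‖ • 1 + h) (fun x => by
        have := h.norm_coe_le_norm x
        rw [Real.norm_eq_abs, abs_le] at this
        simp
        linarith)
      have h2 := hnonneg (‖h‖ • 1 + (-1 : ℝ) • h) (fun x => by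
        have := h.norm_coe_le_norm x
        rw [Real.norm_eq_abs, abs_le] at this
        simp
        linarith)
      rw [hadd, hsmul, hone] at h1
      rw [hadd, hsmul, hsmul, hone] at h2
      show ‖RCLike.re (m ⟨pull 𝕜 A hA h, pull_mem_WAP A hA _⟩)‖ ≤ 1 * ‖h‖
      rw [Real.norm_eq_abs, abs_le]
      constructor <;> linarith)

lemma mean_apply (A : Act S X) (hA : Continuous A.phi) (m : WAP 𝕜 S →ₗ[𝕜] 𝕜)
    (hm : IsLIM 𝕜 m) (h : C(A.Env, ℝ)) : mean A hA m hm h =
      RCLike.re (m ⟨pull 𝕜 A hA h, pull_mem_WAP A hA _⟩) := rfl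

end Bridge

open Pool.Agent.R192.WP in
/-- **Main theorem.**  If `WAP(S)` has a left invariant mean then `S` has property (F). -/
theorem result {𝕜 : Type*} [RCLike 𝕜] {S : Type u} [Semigroup S] [TopologicalSpace S]
    [SeparatelyContinuousMul S] (m : WAP 𝕜 S →ₗ[𝕜] 𝕜) (hm : IsLIM 𝕜 m) :
    PropertyF.{u, v, w} S := by
  intro 𝕂 _ E _ _ _ _ _ _ _ ι Q hQ C hne hC hconv T hT
  have : ContinuousSMul 𝕂 E := hQ.continuousSMul
  have : LocallyConvexSpace ℝ E := hQ.toLocallyConvexSpace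
  have : SeparatingDual 𝕂 E := ⟨fun x hx => by
    obtain ⟨f, hf⟩ := RCLike.geometric_hahn_banach_point_point (𝕜 := 𝕂) hx.symm
    refine ⟨f, fun h => ?_⟩
    rw [h, map_zero] at hf
    exact lt_irrefl _ hf⟩
  let A : Act S C := ⟨T, hT.mul, hT.quasi_equicontinuous⟩
  have : CompactSpace C := isCompact_iff_compactSpace.1 hC
  have hA : Continuous A.phi :=
    Continuous.subtype_mk (continuous_pi fun x => hT.continuous_left x) _
  refine fixed_point (fun i => (Q i).restrictScalars ℝ) (fun i => hQ.continuous_seminorm i)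
    (fun v hv => ?_) A hC hconv hne (fun i s x y => hT.nonexpansive i s x y)
    (mean A hA m hm) ?_ ?_
  · by_contra hv0
    obtain ⟨i, hi⟩ := hQ.separating_of_T1 v hv0
    exact hi (hv i)
  · rw [mean_apply]
    have : (⟨pull 𝕜 A hA 1, pull_mem_WAP A hA _⟩ : WAP 𝕜 S) = ⟨1, one_mem_WAP 𝕜⟩ := by
      apply Subtype.ext
      ext s
      simp [pull]
    rw [this, hm.one, RCLike.one_re]
  · intro s h
    rw [mean_apply, mean_apply, ← hm.invariant s ⟨pull 𝕜 A hA h, pull_mem_WAP A hA _⟩]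
    congr 2
    exact Subtype.ext (leftTranslate_pull A hA s h).symm

end Pool.Agent.Results.MP_c68506_an.NoSeparability
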